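import Pool.Agent.H588Z.Ex41

set_option autoImplicit false

namespace Pool.Agent.Results.MP_33fb9b_co.ABelowBeta

open Pool.Agent.H588Z.Bal Pool.Agent.H588Z

/-- **A poset outside `𝒟` with balance constant below `β`.** There is a poset with 41 elements and
width at most two, not a direct sum of copies of `1` and `𝓔`, whose balance constant is
`15348247 / 43997656 = 0.34884237…`, smaller than `β = 0.34884346…`. -/
theorem result :
    ∃ (α : Type) (_ : Fintype α) (_ : PartialOrder α),
      Fintype.card α = 41 ∧
      (∀ s : Finset α, IsAntichain (· ≤ ·) (s : Set α) → s.card ≤ 2) ∧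
      ¬ InD α ∧
      balance α = 15348247 / 43997656 ∧
      balance α < (5864893 + 27 * √57) / 16812976 :=
  ⟨Ex41.P, inferInstance, inferInstance, Ex41.card_P, Ex41.width_P, Ex41.not_InD_P,
    Ex41.balance_P, Ex41.balance_P.trans_lt Ex41.lt_beta⟩

end Pool.Agent.Results.MP_33fb9b_co.ABelowBeta
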